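import Mathlib
import Pool.Agent.H4.APAsym
import Pool.Agent.H4.APRand

namespace Pool.Agent.Results.MP_6bff71_co.Proof

open Finset Pool.Agent.H4

/-- `M k χ n`: the number of monochromatic `k`-term arithmetic progressions
`a, a + d, …, a + (k - 1) d` in `[n] = {1, …, n}` (`a ≥ 1`, `d ≥ 1`), counted by the pair `(a, d)`;
only the values of `χ` on `[n]` matter. -/
def M {r : ℕ} (k : ℕ) (χ : ℕ → Fin r) (n : ℕ) : ℕ :=
  ((Icc 1 n ×ˢ Icc 1 n).filter fun p : ℕ × ℕ =>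
    p.1 + (k - 1) * p.2 ≤ n ∧ ∀ j < k, χ (p.1 + j * p.2) = χ p.1).card

theorem result (k r : ℕ) (hk : 3 ≤ k) (hr : 2 ≤ r) :
    ∃ δ : ℝ, δ < 1 / (2 * ((k : ℝ) - 1) * (r : ℝ) ^ (k - 1)) ∧
      ∃ (χ : ℕ → ℕ → Fin r) (C : ℝ), ∀ n : ℕ, 1 ≤ n → |(M k (χ n) n : ℝ) - δ * n ^ 2| ≤ C * n := by
  obtain ⟨h, rfl⟩ := Nat.exists_eq_add_of_le' (show 2 ≤ k by omega)
  obtain ⟨r, rfl⟩ := Nat.exists_eq_add_of_le' hr
  obtain ⟨ε, ε0, L, m, W, W0, W1, H⟩ := APRand.core (h := h) (r := r) (by omega)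
  choose C δ hc using fun c : ZMod (L + 2) × ZMod (m + 1) → Fin (r + 2) =>
    APAsym.asym (k := h + 2) (L := L + 1) (m := m + 1) (by omega) (by omega) (by omega)
      fun b u => c (b, u)
  rw [show ((h + 2 : ℕ) : ℝ) - 1 = h + 1 by push_cast; ring, show h + 2 - 1 = h + 1 from rfl,
    show ((r + 2 : ℕ) : ℝ) = r + 2 by push_cast; ring]
  set ρ : ℝ := 1 / (2 * (h + 1) * (r + 2) ^ (h + 1))
  obtain ⟨c, hδ⟩ : ∃ c, δ c < ρ := by
    by_contra N
    simp only [not_exists, not_lt] at N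
    obtain ⟨t, ht⟩ := exists_nat_gt ((∑ c, W c * C c) / ε)
    have f0 := (h + 1).factorial_pos
    have a := H ((h + 1).factorial * (t + 1)) (by positivity) (dvd_mul_right _ _)
    have n1 : t + 1 ≤ (L + 1) * ((h + 1).factorial * (t + 1)) := by
      rw [← mul_assoc]; exact Nat.le_mul_of_pos_left _ (by positivity)
    generalize (L + 1) * ((h + 1).factorial * (t + 1)) = n at a n1
    have b : ∑ c, W c * (ρ * n ^ 2 - C c * n) ≤ (ρ - ε) * n ^ 2 :=
      le_trans (sum_le_sum fun c _ => mul_le_mul_of_nonneg_left (by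
        have := mul_le_mul_of_nonneg_right (N c) (sq_nonneg (n : ℝ))
        linarith [(abs_le.1 (hc c n (by omega))).1]) (W0 c)) a
    simp only [mul_sub, sum_sub_distrib, ← mul_assoc, ← sum_mul, W1] at b
    rw [div_lt_iff₀ ε0] at ht
    have n2 : (t : ℝ) + 1 ≤ n := by exact_mod_cast n1
    have n3 : (0 : ℝ) < n := by linarith [Nat.cast_nonneg (α := ℝ) t]
    nlinarith [mul_lt_mul_of_pos_right ht n3, mul_le_mul_of_nonneg_right n2 (mul_pos ε0 n3).le,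
      mul_pos ε0 n3]
  exact ⟨δ c, hδ, fun n x => c (((L + 1) * x / n : ℕ), (x % (m + 1) : ℕ)), C c, hc c⟩

end Pool.Agent.Results.MP_6bff71_co.Proof
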